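import Pool.Agent.Helper54.FP.Inst

/-!
# Frobenius matrices: change of basis, inverse matrix, integrality
-/

set_option autoImplicit false
set_option linter.unusedVariables false
set_option linter.unusedSectionVars false

namespace Pool.Agent.Helper54.FP

section FMsec
variable {p : ℕ} [Fact p.Prime] {G : Type} [Group G] [Fintype G] [DecidableEq G]

/-- entrywise `p`-th powers in characteristic `p` are multiplicative on matrices -/
theorem left_map_pow_mul {Ω : Type} [CommRing Ω] [CharP Ω p] (A B : Matrix G G Ω) :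
    (A * B).map (fun y => y ^ p) = A.map (fun y => y ^ p) * B.map (fun y => y ^ p) :=
  Matrix.map_mul (f := frobenius Ω p)

theorem left_isUnit_map_pow {Ω : Type} [CommRing Ω] [CharP Ω p] {A : Matrix G G Ω}
    (hA : IsUnit A) : IsUnit (A.map (fun y => y ^ p)) :=
  hA.map (frobenius Ω p).mapMatrix

theorem fm_left {R Ω : Type} [CommRing R] [CommRing Ω] [CharP R p] [CharP Ω p] {φ : R →+* Ω}
    {Y : Matrix G G Ω} {H : Subgroup G} (h : FM p φ Y H) (C : Matrix G G R) (hC : IsUnit C) :
    FM p φ (C.map φ * Y) H := by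
  refine ⟨?_, ?_, ?_, ?_⟩
  · exact (hC.map φ.mapMatrix).mul h.unit
  · obtain ⟨Ψ, hΨ, hY⟩ := h.frob
    obtain ⟨D, hD1, hD2⟩ := isUnit_iff_exists.1 hC
    have hDu : IsUnit D := isUnit_iff_exists.2 ⟨C, hD2, hD1⟩
    refine ⟨C.map (fun y => y ^ p) * Ψ * D, ((left_isUnit_map_pow hC).mul hΨ).mul hDu, ?_⟩
    have e1 : (C.map φ).map (fun y => y ^ p) = (C.map (fun y => y ^ p)).map φ := by
      ext i j
      simp
    have e2 : D.map φ * C.map φ = 1 := by
      rw [← Matrix.map_mul, hD2, Matrix.map_one _ (map_zero φ) (map_one φ)]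
    rw [left_map_pow_mul, hY, e1, Matrix.map_mul, Matrix.map_mul]
    calc _ = (C.map (fun y => y ^ p)).map φ * Ψ.map φ * 1 * Y := by
          rw [Matrix.mul_one, Matrix.mul_assoc]
      _ = (C.map (fun y => y ^ p)).map φ * Ψ.map φ * (D.map φ * C.map φ) * Y := by rw [e2]
      _ = _ := by simp only [Matrix.mul_assoc]
  · intro g hg F hF
    rw [actM_mul, ev_mul_left]
    rw [ev_mul_left] at hF
    exact h.sym g hg _ hF
  · intro F hF
    rw [ev_mul_left]
    apply h.fix
    intro g hg
    have := hF g hg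
    rwa [actM_mul, ev_mul_left, ev_mul_left] at this

/-- the entries of the inverse matrix are polynomials in the entries of `Y` -/
theorem fm_inv {R Ω : Type} [CommRing R] [CommRing Ω] [CharP Ω p] {φ : R →+* Ω}
    {Y : Matrix G G Ω} {H : Subgroup G} (h : FM p φ Y H) :
    ∃ Z : Matrix G G (MvPolynomial (G × G) R), Y * Z.map (ev φ Y) = 1 ∧ Z.map (ev φ Y) * Y = 1 := by
  obtain ⟨Ψ, hΨ, hY⟩ := h.frob
  have hp : 2 ≤ p := (Fact.out : p.Prime).two_le
  have hdet : IsUnit Y.det := (Matrix.isUnit_iff_isUnit_det Y).1 h.unit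
  obtain ⟨δ, hδ, -⟩ := isUnit_iff_exists.1 ((Matrix.isUnit_iff_isUnit_det Ψ).1 hΨ)
  -- the determinant
  have e1 : Y.det ^ p = φ Ψ.det * Y.det := by
    have h1 : (Y.map (fun y => y ^ p)).det = Y.det ^ p :=
      ((frobenius Ω p).map_det Y).symm
    have h2 : (Ψ.map φ).det = φ Ψ.det := (φ.map_det Ψ).symm
    rw [← h1, hY, Matrix.det_mul, h2]
  have e2 : Y.det ^ (p - 1) = φ Ψ.det := by
    have h3 : Y.det ^ (p - 1) * Y.det = φ Ψ.det * Y.det := by
      rw [← pow_succ, Nat.sub_add_cancel (by omega), e1]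
    exact hdet.mul_right_cancel h3
  have e3 : φ δ * Y.det ^ (p - 2) * Y.det = 1 := by
    rw [mul_assoc, ← pow_succ, show p - 2 + 1 = p - 1 by omega, e2, ← map_mul, mul_comm, hδ,
      map_one]
  -- the generic matrix
  let X : Matrix G G (MvPolynomial (G × G) R) := fun i j => MvPolynomial.X (i, j)
  have hX : X.map (ev φ Y) = Y := by
    ext i j
    simp [X]
  have hXd : ev φ Y X.det = Y.det := by
    rw [(ev φ Y).map_det]
    exact congrArg Matrix.det hX
  have hXa : X.adjugate.map (ev φ Y) = Y.adjugate := by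
    have := (ev φ Y).map_adjugate X
    simp only [RingHom.mapMatrix_apply] at this
    rw [this, hX]
  let Z : Matrix G G (MvPolynomial (G × G) R) :=
    (MvPolynomial.C δ * X.det ^ (p - 2)) • X.adjugate
  have hZ : Z.map (ev φ Y) = (φ δ * Y.det ^ (p - 2)) • Y.adjugate := by
    ext i j
    have h4 : ev φ Y (X.adjugate i j) = Y.adjugate i j := congrFun (congrFun hXa i) j
    simp [Z, h4, hXd]
  refine ⟨Z, ?_, ?_⟩
  · rw [hZ, Matrix.mul_smul, Matrix.mul_adjugate, smul_smul, e3, one_smul]
  · rw [hZ, Matrix.smul_mul, Matrix.adjugate_mul, smul_smul, e3, one_smul]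

/-- multiplication of a monomial with the power of one variable -/
theorem left_prod_add {Ω : Type} [CommRing Ω] (Y : Matrix G G Ω) (m : G × G → ℕ) (a : G × G)
    (c : ℕ) : ∏ ij, Y ij.1 ij.2 ^ (m ij + if ij = a then c else 0) =
      (∏ ij, Y ij.1 ij.2 ^ m ij) * Y a.1 a.2 ^ c := by
  have h : ∏ ij : G × G, Y ij.1 ij.2 ^ (if ij = a then c else 0) = Y a.1 a.2 ^ c := by
    rw [Finset.prod_eq_single a]
    · simp
    · intro b _ hb
      simp [hb]
    · intro hcon
      exact absurd (Finset.mem_univ _) hcon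
  simp only [pow_add, Finset.prod_mul_distrib]
  rw [h]

theorem integral_of_frob {R Ω : Type} [CommRing R] [CommRing Ω] (φ : R →+* Ω) (Y : Matrix G G Ω)
    (Ψ : Matrix G G R) (hΨ : Y.map (fun y => y ^ p) = Ψ.map φ * Y)
    (F : MvPolynomial (G × G) R) : φ.IsIntegralElem (ev φ Y F) := by
  letI : Algebra R Ω := φ.toAlgebra
  have hp : 2 ≤ p := (Fact.out : p.Prime).two_le
  set M : Submodule R Ω := Submodule.span R
    (Set.range fun m : G × G → Fin p => ∏ ij, Y ij.1 ij.2 ^ (m ij : ℕ)) with hM
  have key : ∀ (d : ℕ) (m : G × G → ℕ), ∑ ij, m ij = d → ∏ ij, Y ij.1 ij.2 ^ m ij ∈ M := by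
    intro d
    induction d using Nat.strong_induction_on with
    | _ d ih =>
      intro m hm
      by_cases h : ∀ ij, m ij < p
      · exact Submodule.subset_span ⟨fun ij => ⟨m ij, h ij⟩, rfl⟩
      · push Not at h
        obtain ⟨a, ha⟩ := h
        set m' : G × G → ℕ := fun ij => m ij - if ij = a then p else 0 with hm'
        have e0 : ∀ ij, m ij = m' ij + if ij = a then p else 0 := by
          intro ij
          simp only [hm']
          by_cases hij : ij = a
          · subst hij
            simp only [if_true]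
            omega
          · simp [hij]
        have e1 : ∏ ij, Y ij.1 ij.2 ^ m ij = (∏ ij, Y ij.1 ij.2 ^ m' ij) * Y a.1 a.2 ^ p := by
          rw [← left_prod_add]
          exact Finset.prod_congr rfl fun ij _ => by rw [← e0]
        have e2 : Y a.1 a.2 ^ p = ∑ l, φ (Ψ a.1 l) * Y l a.2 := by
          have := congrFun (congrFun hΨ a.1) a.2
          rw [Matrix.map_apply, Matrix.mul_apply] at this
          simpa using this
        have e3 : ∑ ij, m' ij + p = d := by
          rw [← hm]
          have : ∑ ij, m ij = ∑ ij, (m' ij + if ij = a then p else 0) :=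
            Finset.sum_congr rfl fun ij _ => e0 ij
          rw [this, Finset.sum_add_distrib]
          simp
        rw [e1, e2, Finset.mul_sum]
        refine Submodule.sum_mem _ fun l _ => ?_
        have e4 : (∏ ij, Y ij.1 ij.2 ^ m' ij) * (φ (Ψ a.1 l) * Y l a.2) =
            Ψ a.1 l • ∏ ij, Y ij.1 ij.2 ^ (m' ij + if ij = (l, a.2) then 1 else 0) := by
          rw [left_prod_add, Algebra.smul_def]
          show _ = φ (Ψ a.1 l) * _
          rw [pow_one]
          ring
        rw [e4]
        refine M.smul_mem _ (ih (∑ ij, (m' ij + if ij = (l, a.2) then 1 else 0)) ?_ _ rfl)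
        rw [Finset.sum_add_distrib]
        simp only [Finset.sum_ite_eq', Finset.mem_univ, if_true]
        omega
  set S : Subalgebra R Ω :=
    (MvPolynomial.aeval (R := R) (fun ij : G × G => Y ij.1 ij.2)).range with hS
  have hev : ∀ F : MvPolynomial (G × G) R,
      ev φ Y F = MvPolynomial.aeval (R := R) (fun ij : G × G => Y ij.1 ij.2) F := fun _ => rfl
  have hle : Subalgebra.toSubmodule S ≤ M := by
    rintro _ ⟨P, rfl⟩
    show MvPolynomial.aeval (R := R) (fun ij : G × G => Y ij.1 ij.2) P ∈ M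
    induction P using MvPolynomial.induction_on' with
    | monomial m r =>
      rw [MvPolynomial.aeval_monomial, ← Algebra.smul_def, Finsupp.prod_fintype _ _
        (fun _ => pow_zero _)]
      exact M.smul_mem _ (key _ _ rfl)
    | add P Q hP hQ =>
      rw [map_add]
      exact M.add_mem hP hQ
  have hge : M ≤ Subalgebra.toSubmodule S := by
    rw [hM, Submodule.span_le]
    rintro _ ⟨m, rfl⟩
    refine ⟨∏ ij, MvPolynomial.X ij ^ (m ij : ℕ), ?_⟩
    simp
  have hfg : (Subalgebra.toSubmodule S).FG := by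
    rw [le_antisymm hle hge]
    exact Submodule.fg_span (Set.finite_range _)
  exact IsIntegral.of_mem_of_fg S hfg _ ⟨F, (hev F).symm⟩

end FMsec

end Pool.Agent.Helper54.FP
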